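import Pool.Agent.Lib.helper11.QWheel

namespace Pool.Agent.Results.MP_1debac_an.Delta

open Pool.Agent.Lib.helper11.QGraph Set Real

noncomputable def D (α : ℝ) : QG (Fin 6) (Fin 9) :=
  ⟨![0, 1, 2, 3, 0, 1, 2, 3, 4], ![1, 2, 3, 0, 4, 4, 4, 4, 5],
    ![1, 1, 1, 1, 1, 1, 1, 1, 1 / 2], ![0, 0, 0, 0, α, 0]⟩

variable {α : ℝ}

lemma D_hot (x : ℝ) : (D α).Hot ((π / 2) ^ 2) 0 x := by
  obtain ⟨a, ha⟩ : ∃ a, a = cos (π / 2 * x) := ⟨_, rfl⟩
  obtain ⟨b, hb⟩ : ∃ b, b = sin (π / 2 * x) := ⟨_, rfl⟩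
  have hab : a ^ 2 + b ^ 2 = 1 := by rw [ha, hb]; exact cos_sq_add_sin_sq _
  refine ⟨fun e y => ![a, b, -a, -b, 0, 0] ((D α).src e) * cos (π / 2 * y) +
    π / 2 * ![a, b, -a, -b, 0, 0] ((D α).tgt e) * (sin (π / 2 * y) / (π / 2)),
    (eig_iff (D α) (fun e => (W_len e).le) fund_half _).2 ⟨_, _, fun _ _ _ => rfl, fun e => ?_,
      fun v => ?_, ?_⟩, Or.inl fun e y _ => ?_⟩
  · fin_cases e <;> simp [D] <;> field_simp
  · fin_cases v <;> simp [D, Finset.sum_filter, Fin.sum_univ_succ] <;> field_simp <;> ring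
  · by_cases h : a = 0
    · exact ⟨1, 0, by simp [D], by simp [D]; rintro rfl; simp [h] at hab⟩
    · exact ⟨0, 0, by simp [D], by simpa [D]⟩
  · have h := cos_sq_add_sin_sq (π / 2 * y)
    have e1 : ∀ t u : ℝ, π / 2 * t * (u / (π / 2)) = t * u := fun t u => by field_simp
    simp only [e1, ← ha, ← hb]
    generalize cos (π / 2 * y) = c at h
    generalize sin (π / 2 * y) = s at h
    fin_cases e <;> simp [D] <;>
      nlinarith [sq_nonneg (a - c), sq_nonneg (a + c), sq_nonneg (b - c), sq_nonneg (b + c),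
        sq_nonneg (a - s), sq_nonneg (a + s), sq_nonneg (b - s), sq_nonneg (b + s)]

lemma D_eqs {μ : ℝ} {C S : ℝ → ℝ} (h : Fund μ C S) (h1 : C 1 = 2 * C (1 / 2) ^ 2 - 1)
    (h2 : S 1 = 2 * C (1 / 2) * S (1 / 2)) {F : Fin 6 → ℝ} {d : Fin 9 → ℝ}
    (e1 : ∀ e, F ((D α).tgt e) = F ((D α).src e) * C ((D α).len e) + d e * S ((D α).len e))
    (e2 : ∀ v, ∑ e with (D α).src e = v, d e - ∑ e with (D α).tgt e = v,
      (d e * C ((D α).len e) - μ * F ((D α).src e) * S ((D α).len e)) = (D α).str v * F v) :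
    F 1 + F 3 + F 4 = 3 * C 1 * F 0 ∧ F 0 + F 2 + F 4 = 3 * C 1 * F 1 ∧
    F 1 + F 3 + F 4 = 3 * C 1 * F 2 ∧ F 0 + F 2 + F 4 = 3 * C 1 * F 3 ∧
    F 0 + F 1 + F 2 + F 3 = (5 * C 1 - 1 + S 1 * α) * F 4 ∧ d 8 * C (1 / 2) = μ * F 4 * S (1 / 2) := by
  simp only [Fin.forall_fin_succ] at e1 e2
  simp [D, Finset.sum_filter, Fin.sum_univ_succ, -one_div] at e1 e2
  obtain ⟨a0, a1, a2, a3, a4, a5, a6, a7, a8⟩ := e1
  obtain ⟨b0, b1, b2, b3, b4, b5⟩ := e2
  have w := h.w 1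
  have w' := h.w (1 / 2)
  refine ⟨?_, ?_, ?_, ?_, ?_, ?_⟩
  · linear_combination S 1 * b0 + a0 + a4 - C 1 * a3 - F 3 * w
  · linear_combination S 1 * b1 + a1 + a5 - C 1 * a0 - F 0 * w
  · linear_combination S 1 * b2 + a2 + a6 - C 1 * a1 - F 1 * w
  · linear_combination S 1 * b3 + a3 + a7 - C 1 * a2 - F 2 * w
  · linear_combination S 1 * b4 - C 1 * (a4 + a5 + a6 + a7) - (F 0 + F 1 + F 2 + F 3) * w -
      d 8 * h2 + 2 * S (1 / 2) * b5 - 2 * F 4 * w' - F 4 * h1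
  · linear_combination -b5

lemma low {μ : ℝ} {C S : ℝ → ℝ} (h : Fund μ C S) (p1 : 0 < C 1) (p2 : 0 < S 1)
    (p3 : 0 < C (1 / 2)) (h1 : C 1 = 2 * C (1 / 2) ^ 2 - 1) (h2 : S 1 = 2 * C (1 / 2) * S (1 / 2)) :
    μ ∈ (D α).Spec ↔ (1 - C 1) * (15 * C 1 + 2) = (3 * C 1 - 2) * S 1 * α := by
  constructor
  · rintro ⟨f, hf⟩
    by_contra h0
    obtain ⟨F, d, e0, e1, e2, e, x, hx, hne⟩ := (eig_iff (D α) (fun e => (W_len e).le) h f).1 hf
    obtain ⟨c0, c1, c2, c3, c4, c5⟩ := D_eqs h h1 h2 e1 e2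
    have k4 : F 4 = 0 := by
      have : ((1 - C 1) * (15 * C 1 + 2) - (3 * C 1 - 2) * S 1 * α) * F 4 = 0 := by
        linear_combination c0 + c1 + c2 + c3 - (2 - 3 * C 1) * c4
      exact (mul_eq_zero.1 this).resolve_left (sub_ne_zero.2 h0)
    have k02 : F 2 = F 0 := mul_left_cancel₀ p1.ne' (by linarith)
    have k13 : F 3 = F 1 := mul_left_cancel₀ p1.ne' (by linarith)
    rw [k4] at c4 c5
    have k0 : F 0 = 0 := by
      have : (3 * C 1 + 2) * F 0 = 0 := by linarith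
      exact (mul_eq_zero.1 this).resolve_left (by positivity)
    have k8 : d 8 = 0 := by simpa [p3.ne', -one_div] using c5
    have := W_zero p2.ne' e1 k0 (by linarith) (by linarith) (by linarith) k4 k8 e
    exact hne (by rw [e0 e x hx]; exact (congrArg₂ (· * C x + · * S x) this.1 this.2).trans (by ring))
  · intro h0
    have w := h.w 1
    have w' := h.w (1 / 2)
    obtain ⟨t, ht⟩ : ∃ t, t * S 1 = 1 - C 1 := ⟨_, div_mul_cancel₀ _ p2.ne'⟩
    obtain ⟨u, hu⟩ : ∃ u, u * C (1 / 2) = μ * (3 * C 1 - 2) * S (1 / 2) :=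
      ⟨_, div_mul_cancel₀ _ p3.ne'⟩
    refine ⟨fun e x => _, (eig_iff (D α) (fun e => (W_len e).le) h _).2
      ⟨![1, 1, 1, 1, 3 * C 1 - 2, (3 * C 1 - 2) * C (1 / 2) + u * S (1 / 2)],
        ![t, t, t, t, -2 * t, -2 * t, -2 * t, -2 * t, u], fun _ _ _ => rfl, fun e => ?_,
        fun v => ?_, 0, 0, by simp [D], by simp [D, h.c0, h.s0]⟩⟩
    · fin_cases e <;> simp [D, -one_div] <;> linarith
    · have a : t + -2 * t - (t * C 1 - μ * S 1) = 0 := mul_left_cancel₀ p2.ne' (by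
        linear_combination w - (1 + C 1) * ht)
      have b : u - 4 * (-2 * t * C 1 - μ * S 1) = α * (3 * C 1 - 2) := mul_left_cancel₀ p2.ne' (by
        linear_combination u * h2 + 2 * S (1 / 2) * hu + 2 * (3 * C 1 - 2) * w' +
          (3 * C 1 - 2) * h1 + 8 * C 1 * ht + 4 * w + h0)
      fin_cases v <;> simp [D, Finset.sum_filter, Fin.sum_univ_succ, -one_div] <;> linarith

lemma lowk {k : ℝ} (hk : 0 < k) (h2 : k < π / 2) : k ^ 2 ∈ (D α).Spec ↔
    (1 - cos k) * (15 * cos k + 2) = (3 * cos k - 2) * (sin k / k) * α := by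
  have := low (α := α) (fund_pos hk.ne') (cos_pos_of_mem_Ioo ⟨by linarith, by linarith⟩)
    (div_pos (sin_pos_of_pos_of_lt_pi (by linarith) (by linarith)) hk)
    (cos_pos_of_mem_Ioo ⟨by linarith, by linarith⟩) (by rw [← cos_two_mul]; congr 1; ring) (by
      have := sin_two_mul (k * (1 / 2))
      rw [show 2 * (k * (1 / 2)) = k * 1 by ring] at this
      simp only [this]; ring)
  simpa only [mul_one] using this

lemma form {k : ℝ} (hα : 0 < α) (hk : 0 < k) (h2 : k < π / 2) (h : k ^ 2 ∈ (D α).Spec) :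
    2 < 3 * cos k ∧ α = k * tan (k / 2) * (5 + 12 / (3 * cos k - 2)) := by
  have e := (lowk hk h2).1 h
  have c0 := cos_pos_of_mem_Ioo (x := k) ⟨by linarith, h2⟩
  have c1 : cos k < 1 := (cos_lt_cos_of_nonneg_of_le_pi le_rfl (by linarith) hk).trans_eq cos_zero
  have s0 := sin_pos_of_pos_of_lt_pi hk (by linarith)
  have p : 0 < (3 * cos k - 2) * (sin k / k * α) := by
    rw [← mul_assoc, ← e]; exact mul_pos (by linarith) (by linarith)
  have q := (pos_iff_pos_of_mul_pos p).2 (by positivity)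
  refine ⟨by linarith, ?_⟩
  have c2 := cos_pos_of_mem_Ioo (x := k / 2) ⟨by linarith, by linarith⟩
  have a1 := sin_two_mul (k / 2)
  have a2 := cos_two_mul' (k / 2)
  have a3 := cos_sq_add_sin_sq (k / 2)
  rw [show 2 * (k / 2) = k by ring] at a1 a2
  have t : tan (k / 2) = (1 - cos k) / sin k := by
    rw [tan_eq_sin_div_cos, div_eq_div_iff c2.ne' s0.ne', a1, a2]
    linear_combination cos (k / 2) * a3
  rw [t]
  obtain ⟨m, hm⟩ : ∃ m, m = 3 * cos k - 2 := ⟨_, rfl⟩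
  rw [← hm] at q e ⊢
  field_simp at e ⊢
  linear_combination -e - 5 * k * (1 - cos k) * hm

lemma uniq {k l : ℝ} (hα : 0 < α) (hk : 0 < k) (hkl : k < l) (h2 : l < π / 2)
    (a : k ^ 2 ∈ (D α).Spec) (b : l ^ 2 ∈ (D α).Spec) : False := by
  obtain ⟨a1, a2⟩ := form hα hk (by linarith) a
  obtain ⟨b1, b2⟩ := form hα (by linarith) h2 b
  have t0 : 0 < tan (k / 2) := tan_pos_of_pos_of_lt_pi_div_two (by linarith) (by linarith)
  have t1 : tan (k / 2) < tan (l / 2) :=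
    tan_lt_tan_of_nonneg_of_lt_pi_div_two (by linarith) (by linarith) (by linarith)
  have c := cos_lt_cos_of_nonneg_of_le_pi hk.le (by linarith) hkl
  have p : 0 < 3 * cos l - 2 := by linarith
  have p' : 0 < 3 * cos k - 2 := by linarith
  have : k * tan (k / 2) * (5 + 12 / (3 * cos k - 2)) <
      l * tan (l / 2) * (5 + 12 / (3 * cos l - 2)) := by
    have := hk.trans hkl
    have := t0.trans t1
    gcongr
  linarith

lemma D_not_hot (hα : 0 < α) : ¬ (D α).Hot ((π / 2) ^ 2) 8 (1 / 4) := by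
  rintro ⟨f, hf, h⟩
  obtain ⟨F, d, e0, e1, e2, e, x, hx, hne⟩ :=
    (eig_iff (D α) (fun e => (W_len e).le) fund_half f).1 hf
  have p3 : cos (π / 2 * (1 / 2)) ≠ 0 :=
    (cos_pos_of_mem_Ioo ⟨by linarith [pi_pos], by linarith [pi_pos]⟩).ne'
  obtain ⟨c0, c1, c2, c3, c4, c5⟩ := D_eqs fund_half (by rw [← cos_two_mul]; congr 1; ring) (by
    have := sin_two_mul (π / 2 * (1 / 2))
    rw [show 2 * (π / 2 * (1 / 2)) = π / 2 * 1 by ring] at this
    simp only [this]; ring) e1 e2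
  simp only [mul_one, cos_pi_div_two] at c0 c1 c2 c3 c4
  have k4 : F 4 = 0 := by
    have : (2 + 2 * (sin (π / 2) / (π / 2) * α)) * F 4 = 0 := by linarith
    exact (mul_eq_zero.1 this).resolve_left (by rw [sin_pi_div_two]; positivity)
  have k8 : d 8 = 0 := by simpa [k4, -one_div, p3] using c5
  have z : f 8 (1 / 4) = 0 := by
    rw [e0 8 _ (by simp [D]; norm_num), k8]; simp [D, k4]
  have v : ∀ e, f e 0 = F ((D α).src e) := fun e => by rw [e0 e 0 ⟨le_rfl, (W_len e).le⟩]; simp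
  have m : ∀ e : Fin 9, (0 : ℝ) ∈ Icc 0 ((D α).len e) := fun e => ⟨le_rfl, (W_len e).le⟩
  have hF : F 0 = 0 ∧ F 1 = 0 ∧ F 2 = 0 ∧ F 3 = 0 := by
    rcases h with h | h <;>
    · have g0 := h 0 0 (m 0)
      have g1 := h 1 0 (m 1)
      have g2 := h 2 0 (m 2)
      have g3 := h 3 0 (m 3)
      rw [v, z] at g0 g1 g2 g3
      simp [D] at g0 g1 g2 g3
      refine ⟨?_, ?_, ?_, ?_⟩ <;> linarith
  have := W_zero (C := fun x => cos (π / 2 * x)) (S := fun x => sin (π / 2 * x) / (π / 2)) (by simp) e1 hF.1 hF.2.1 hF.2.2.1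
    hF.2.2.2 k4 k8 e
  exact hne (by rw [e0 e x hx, show F ((D α).src e) = 0 from this.1, this.2]; ring)

theorem result : ∃ (G : QG (Fin 6) (Fin 9)) (μ : ℝ), G.Good ∧ (∃ v, G.str v ≠ 0) ∧
    G.IsSecond μ ∧ (∃ e, ∀ x ∈ Ioo 0 (G.len e), G.Hot μ e x) ∧
    ∃ e, ∃ x ∈ Ioo 0 (G.len e), ¬ G.Hot μ e x := by
  have h2 : 1 / 2 < π / 2 := by linarith [pi_gt_three]
  have c0 : 2 < 3 * cos (1 / 2) := by linarith [one_sub_sq_div_two_le_cos (x := 1 / 2)]
  have c1 : cos (1 / 2) < 1 :=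
    (cos_lt_cos_of_nonneg_of_le_pi le_rfl (by linarith) (by norm_num)).trans_eq cos_zero
  have s0 := sin_pos_of_pos_of_lt_pi (x := 1 / 2) (by norm_num) (by linarith)
  obtain ⟨α, hα, e⟩ : ∃ α, 0 < α ∧ (1 / 2) ^ 2 ∈ (D α).Spec := by
    have p : 0 < (3 * cos (1 / 2) - 2) * (sin (1 / 2) / (1 / 2)) :=
      mul_pos (by linarith) (by positivity)
    exact ⟨_, div_pos (mul_pos (by linarith) (by linarith)) p,
      (lowk (by norm_num) h2).2 (mul_div_cancel₀ _ p.ne').symm⟩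
  refine ⟨D α, _, W_good, ⟨4, hα.ne'⟩, ⟨(D_hot 0).imp fun f h => h.1, (1 / 2) ^ 2,
    subset_antisymm ?_ ?_⟩, ⟨0, fun x _ => D_hot x⟩, 8, 1 / 4, by simp [D]; norm_num,
    D_not_hot hα⟩
  · rintro μ ⟨hs, hμ⟩
    rcases le_or_gt μ 0 with h | h
    · obtain ⟨C, S, f, p1, p2, p3, h1, h2, -, h4⟩ := fund_low hμ
      have := (low f p1 p2 p3 h1 h2).1 hs
      have h5 := h4 h
      have : 0 < (3 * C 1 - 2) * S 1 * α := mul_pos (mul_pos (by linarith) p2) hα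
      nlinarith
    · obtain ⟨k, hk, rfl⟩ : ∃ k, 0 < k ∧ μ = k ^ 2 := ⟨√μ, sqrt_pos.2 h, (sq_sqrt h.le).symm⟩
      have h3 : k < π / 2 := lt_of_pow_lt_pow_left₀ 2 (by positivity) hμ
      rcases lt_trichotomy k (1 / 2) with g | rfl | g
      · exact (uniq hα hk g h2 hs e).elim
      · rfl
      · exact (uniq hα (by norm_num) g h3 e hs).elim
  · rintro _ rfl
    exact ⟨e, pow_lt_pow_left₀ h2 (by norm_num) two_ne_zero⟩

end Pool.Agent.Results.MP_1debac_an.Delta
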